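import Mathlib

namespace Pool.Agent.Results.MP_6d8139_co.TwoThirds

/-- `a 1 < ... < a n` are positive integers at most `x` with no three points `(j, a j)` collinear. -/
def Good (x : ℝ) (n : ℕ) (a : ℕ → ℤ) : Prop :=
  (∀ j, 1 ≤ j → j ≤ n → 0 < a j ∧ (a j : ℝ) ≤ x) ∧
  (∀ i j, 1 ≤ i → i < j → j ≤ n → a i < a j) ∧
  ∀ i j k, 1 ≤ i → i < j → j < k → k ≤ n →
    ¬ Collinear ℝ {((i : ℝ), (a i : ℝ)), ((j : ℝ), (a j : ℝ)), ((k : ℝ), (a k : ℝ))}

/-- The largest length of a good sequence. -/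
noncomputable def N (x : ℝ) : ℕ := sSup {n | ∃ a, Good x n a}

lemma col {p q u : ℝ × ℝ} (h : Collinear ℝ {p, q, u}) :
    (q.1 - p.1) * (u.2 - q.2) = (u.1 - q.1) * (q.2 - p.2) := by
  rw [collinear_iff_of_mem (p₀ := p) (by simp)] at h
  obtain ⟨v, hv⟩ := h
  obtain ⟨r, hr⟩ := hv q (by simp)
  obtain ⟨t, ht⟩ := hv u (by simp)
  rw [hr, ht]; simp; ring

lemma le_N {x : ℝ} {n : ℕ} {a : ℕ → ℤ} (h : Good x n a) : n ≤ N x := by
  refine le_csSup ⟨⌈x⌉₊, ?_⟩ ⟨a, h⟩
  rintro n ⟨a, h1, h2, -⟩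
  have : ∀ j, 1 ≤ j → j ≤ n → (j : ℤ) ≤ a j := by
    intro j hj
    induction j, hj using Nat.le_induction with
    | base => intro k; have := (h1 1 le_rfl k).1; push_cast; omega
    | succ j hj ih =>
      intro k
      have := h2 j (j + 1) hj (by omega) k
      have := ih (by omega)
      push_cast; omega
  rcases Nat.eq_zero_or_pos n with rfl | hn
  · exact Nat.zero_le _
  have a1 : (n : ℝ) ≤ a n := by exact_mod_cast this n hn le_rfl
  have a2 := (a1.trans (h1 n hn le_rfl).2).trans (Nat.le_ceil x)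
  exact_mod_cast a2

lemma zero {m s y z : ℤ} (hm : Prime m) (s0 : 0 < s) (s1 : s < m) (y0 : -m < y) (y1 : y < m)
    (h : s * y = m * z) : y = 0 := by
  rcases hm.dvd_or_dvd (⟨z, h⟩ : m ∣ s * y) with k | k
  · exact absurd (Int.le_of_dvd s0 k) (by omega)
  · exact Int.eq_zero_of_abs_lt_dvd k (abs_lt.2 ⟨y0, y1⟩)

lemma core {m R s t p q : ℤ} (hm : Prime m) (hR : 4 * R < m) (s0 : 0 < s) (t0 : 0 < t)
    (p0 : -R < p) (p1 : p < R) (q0 : -R < q) (q1 : q < R) (r0 : -R < p + q) (r1 : p + q < R)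
    (h : s * t * (s + t) + m * (s * q - t * p) = 0) :
    ∃ α, 0 < α ∧ m * α ≤ s + t ∧ ((s = m * α ∧ p = α * t ∧ p + q = 0) ∨
      (t = m * α ∧ q = -(α * s) ∧ p + q = 0) ∨ (s + t = m * α ∧ p = α * s ∧ q = 0) ∨
      (s + t = m * α ∧ q = -(α * t) ∧ p = 0)) := by
  have R0 : 0 < R := by omega
  have m0 : 0 < m := by omega
  have st : s * t < m * R := by
    have a1 : t * p - s * q < R * (s + t) := by nlinarith
    have a2 : s * t * (s + t) < m * R * (s + t) := by nlinarith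
    exact lt_of_mul_lt_mul_right a2 (by omega)
  have pos : ∀ α w : ℤ, 0 < w → w = m * α → 0 < α := fun α w h1 h2 => by
    by_contra k; nlinarith
  have dv : m ∣ s * t * (s + t) := ⟨-(s * q - t * p), by linarith⟩
  rcases hm.dvd_or_dvd dv with k | ⟨α, hα⟩
  · rcases hm.dvd_or_dvd k with ⟨α, hα⟩ | ⟨α, hα⟩
    · have α0 := pos α s s0 hα
      subst hα
      have b1 : α * t < R := lt_of_mul_lt_mul_left (by linarith) m0.le
      have b2 : t ≤ α * t := by nlinarith
      have e : α * t * (m * α + t) + (m * α * q - t * p) = 0 :=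
        mul_left_cancel₀ m0.ne' (by linear_combination h)
      have z := zero (y := α * t - p) (z := -(α * (α * t + q))) hm t0 (by omega) (by omega) (by omega)
        (by linear_combination e)
      have z2 : m * α * (α * t + q) = 0 := by linear_combination e - t * z
      have z3 := (mul_eq_zero.1 z2).resolve_left s0.ne'
      exact ⟨α, α0, by omega, .inl ⟨rfl, by omega, by omega⟩⟩
    · have α0 := pos α t t0 hα
      subst hα
      have b1 : α * s < R := lt_of_mul_lt_mul_left (by linarith) m0.le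
      have b2 : s ≤ α * s := by nlinarith
      have e : α * s * (s + m * α) + (s * q - m * α * p) = 0 :=
        mul_left_cancel₀ m0.ne' (by linear_combination h)
      have z := zero (y := α * s + q) (z := α * (p - α * s)) hm s0 (by omega) (by omega) (by omega)
        (by linear_combination e)
      have z2 : m * α * (α * s - p) = 0 := by linear_combination e - s * z
      have z3 := (mul_eq_zero.1 z2).resolve_left t0.ne'
      exact ⟨α, α0, by omega, .inr (.inl ⟨rfl, by omega, by omega⟩)⟩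
  · have α0 := pos α (s + t) (by omega) hα
    have mα : m ≤ m * α := by nlinarith
    have e : s * t * α + (s * q - t * p) = 0 :=
      mul_left_cancel₀ m0.ne' (by linear_combination h - s * t * hα)
    rcases le_total s t with c | c
    · have b1 : α * s < 2 * R := lt_of_mul_lt_mul_left (a := m) (by nlinarith) m0.le
      have b2 : s ≤ α * s := by nlinarith
      have z := zero (y := p + q - α * s) (z := α * (p - α * s)) hm s0 (by omega) (by omega) (by omega)
        (by linear_combination e + (p - α * s) * hα)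
      have z2 : (s + t) * q = 0 := by linear_combination e + t * z
      have z3 := (mul_eq_zero.1 z2).resolve_left (by omega)
      exact ⟨α, α0, hα.ge, .inr (.inr (.inl ⟨hα, by omega, z3⟩))⟩
    · have b1 : α * t < 2 * R := lt_of_mul_lt_mul_left (a := m) (by nlinarith) m0.le
      have b2 : t ≤ α * t := by nlinarith
      have z := zero (y := α * t + p + q) (z := α * (α * t + q)) hm t0 (by omega) (by omega) (by omega)
        (by linear_combination -e + (α * t + q) * hα)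
      have z2 : (s + t) * p = 0 := by linear_combination -e + s * z
      have z3 := (mul_eq_zero.1 z2).resolve_left (by omega)
      exact ⟨α, α0, hα.ge, .inr (.inr (.inr ⟨hα, by omega, z3⟩))⟩

lemma build (e : ℕ) : ∃ a, Good (66 * ((2 : ℝ) ^ e) ^ 3) ((2 ^ e) ^ 2) a := by
  obtain ⟨M, hMe⟩ : ∃ M : ℕ, M = 2 ^ e := ⟨_, rfl⟩
  have hM : 1 ≤ M := hMe ▸ Nat.one_le_two_pow
  rw [← hMe, show (2 : ℝ) ^ e = M by rw [hMe]; push_cast; rfl]
  obtain ⟨m, mp, m1, m2⟩ := Nat.exists_prime_lt_and_le_two_mul (8 * M) (by omega)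
  have M1 : (1 : ℤ) ≤ M := by exact_mod_cast hM
  have m1' : 4 * (2 * (M : ℤ)) < m := by omega
  have m2' : (m : ℤ) ≤ 16 * (M : ℤ) := by omega
  have cop : IsCoprime (m : ℤ) (M : ℤ) := by
    rw [Nat.isCoprime_iff_coprime, Nat.Prime.coprime_iff_not_dvd mp]
    intro h
    have := Nat.le_of_dvd hM h
    omega
  obtain ⟨u, v, huv⟩ := id cop
  set κ : ℕ → ℤ := fun j => (-(((j : ℤ) ^ 2 + j) * u)) % M with hκ
  set k : ℕ → ℤ := fun j => κ j + M * ((j : ℤ) % 2) with hk
  have κ0 : ∀ j, 0 ≤ κ j := fun j => Int.emod_nonneg _ (by omega)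
  have κ1 : ∀ j, κ j < M := fun j => Int.emod_lt_of_pos _ (by omega)
  have kc : ∀ j : ℕ, ((j : ℤ) % 2 = 0 ∧ k j = κ j) ∨ ((j : ℤ) % 2 = 1 ∧ k j = κ j + M) := fun j => by
    rcases Int.emod_two_eq_zero_or_one j with h | h <;> simp [hk, h]
  have k0 : ∀ j, 0 ≤ k j := fun j => by have := kc j; have := κ0 j; omega
  have k1 : ∀ j, k j < 2 * M := fun j => by have := kc j; have := κ1 j; omega
  have far : ∀ (i j : ℕ) (α c : ℤ), 0 < α → m * α ≤ (M : ℤ) ^ 2 → k j - k i = 0 →
      m * (α * (i + j + 1)) ≠ M * c := by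
    intro i j α c α0 α1 hij h
    have od : Odd ((i : ℤ) + j + 1) := by
      have := kc i; have := kc j; have := κ0 i; have := κ0 j; have := κ1 i; have := κ1 j
      rw [Int.odd_iff]; omega
    have c2 : IsCoprime (M : ℤ) ((i : ℤ) + j + 1) := by
      rw [hMe]; push_cast
      exact (Int.isCoprime_two_left.2 od).pow_left
    have d1 : (M : ℤ) ∣ α := c2.dvd_of_dvd_mul_right (cop.symm.dvd_of_dvd_mul_left ⟨c, h⟩)
    have := Int.le_of_dvd α0 d1
    nlinarith
  have ex : ∀ j : ℕ, ∃ c : ℤ, M * c = (j : ℤ) ^ 2 + j + m * k j + 2 * M * m * j := by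
    intro j
    refine ⟨(j ^ 2 + j) * v - m * (-(((j : ℤ) ^ 2 + j) * u) / M) + m * ((j : ℤ) % 2) + 2 * m * j, ?_⟩
    simp only [hk, hκ, Int.emod_def (-(((j : ℤ) ^ 2 + j) * u))]
    linear_combination ((j : ℤ) ^ 2 + j) * huv
  choose a ha using ex
  have m0 : (0 : ℤ) < m := by omega
  refine ⟨a, fun j j1 j2 => ⟨?_, ?_⟩, fun i j i1 ij j2 => ?_, fun i j l i1 ij jl l2 hc => ?_⟩
  · have j0 : (1 : ℤ) ≤ j := by exact_mod_cast j1
    refine (mul_pos_iff_of_pos_left (show (0 : ℤ) < M by omega)).1 ?_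
    rw [ha]
    have := k0 j
    positivity
  · have j3 : (j : ℤ) ≤ (M : ℤ) ^ 2 := by exact_mod_cast j2
    have j0 : (0 : ℤ) ≤ j := Int.natCast_nonneg _
    have : a j ≤ 66 * (M : ℤ) ^ 3 := by
      refine le_of_mul_le_mul_left (a := (M : ℤ)) ?_ (by omega)
      rw [ha]
      have c1 : (j : ℤ) ^ 2 ≤ ((M : ℤ) ^ 2) ^ 2 := pow_le_pow_left₀ j0 j3 2
      have c2 : (m : ℤ) * k j ≤ 16 * (M : ℤ) * (2 * M) :=
        mul_le_mul m2' (k1 j).le (k0 j) (by positivity)
      have c3 : (m : ℤ) * j ≤ 16 * (M : ℤ) * (M : ℤ) ^ 2 := mul_le_mul m2' j3 j0 (by positivity)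
      have c4 : (M : ℤ) ^ 2 ≤ (M : ℤ) ^ 4 := pow_le_pow_right₀ M1 (by norm_num)
      nlinarith [mul_le_mul_of_nonneg_left c3 (show (0 : ℤ) ≤ M by omega)]
    exact_mod_cast this
  · refine lt_of_mul_lt_mul_left (a := (M : ℤ)) ?_ (by omega)
    rw [ha, ha]
    have ij' : (i : ℤ) + 1 ≤ j := by exact_mod_cast ij
    have i0 : (0 : ℤ) ≤ i := Int.natCast_nonneg _
    have c1 : k i - 2 * M ≤ k j := by have := k0 j; have := k1 i; omega
    have c2 : (m : ℤ) * (k i - 2 * M) ≤ m * k j := mul_le_mul_of_nonneg_left c1 m0.le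
    have c3 : (M : ℤ) * m * (i + 1) ≤ M * m * j := mul_le_mul_of_nonneg_left ij' (by positivity)
    nlinarith
  · have e := col hc
    simp only at e
    have e' : ((j : ℤ) - i) * (a l - a j) = (l - j) * (a j - a i) := by exact_mod_cast e
    have ij' : (i : ℤ) < j := by exact_mod_cast ij
    have jl' : (j : ℤ) < l := by exact_mod_cast jl
    have l3 : (l : ℤ) ≤ (M : ℤ) ^ 2 := by exact_mod_cast l2
    have i0 : (0 : ℤ) ≤ i := Int.natCast_nonneg _
    have := k0 i; have := k0 j; have := k0 l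
    have := k1 i; have := k1 j; have := k1 l
    obtain ⟨α, α0, α1, c⟩ := core (s := (j : ℤ) - i) (t := (l : ℤ) - j) (p := k j - k i) (q := k l - k j)
      (Nat.prime_iff_prime_int.1 mp) m1' (by omega) (by omega) (by omega) (by omega) (by omega)
      (by omega) (by omega) (by omega)
      (by linear_combination (M : ℤ) * e' - (j - i) * (ha l - ha j) + (l - j) * (ha j - ha i))
    have α2 : m * α ≤ (M : ℤ) ^ 2 := by linarith
    rcases c with ⟨c1, c2, c3⟩ | ⟨c1, c2, c3⟩ | ⟨c1, c2, c3⟩ | ⟨c1, c2, c3⟩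
    · exact far i l α (a j - a i - 2 * m * (j - i)) α0 α2 (by linarith)
        (by linear_combination ha i - ha j - (i + j + 1) * c1 - m * c2)
    · exact far i l α (a l - a j - 2 * m * (l - j)) α0 α2 (by linarith)
        (by linear_combination ha j - ha l - (j + l + 1) * c1 - m * c2)
    · exact far j l α (a l - a i - 2 * m * (l - i)) α0 α2 c3
        (by linear_combination ha i - ha l - (i + l + 1) * c1 - m * c2 - m * c3)
    · exact far i j α (a l - a i - 2 * m * (l - i)) α0 α2 c3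
        (by linear_combination ha i - ha l - (i + l + 1) * c1 - m * c2 - m * c3)

/-- `N(x)` grows at least like `x^(2/3)`. -/
theorem result : ∃ c : ℝ, 0 < c ∧ ∀ x : ℝ, 1 ≤ x → c * x ^ (2 / 3 : ℝ) ≤ N x := by
  refine ⟨1 / 100, by norm_num, fun x hx => ?_⟩
  set y : ℝ := x ^ (1 / 3 : ℝ) with hy
  have y0 : 0 ≤ y := by positivity
  have y5 : y ^ 3 = x := by
    rw [hy, ← Real.rpow_natCast, ← Real.rpow_mul (by linarith)]; norm_num
  have y3 : y ^ 2 = x ^ (2 / 3 : ℝ) := by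
    rw [hy, ← Real.rpow_natCast, ← Real.rpow_mul (by linarith)]; norm_num
  rw [← y3]
  by_cases h : y < 5
  · have g : Good x 1 fun _ => 1 :=
      ⟨fun _ _ _ => ⟨one_pos, by simpa using hx⟩, fun _ _ _ _ _ => by omega,
        fun _ _ _ _ _ _ _ => by omega⟩
    have a1 : (1 : ℝ) ≤ N x := by exact_mod_cast le_N g
    have : y ^ 2 ≤ 5 ^ 2 := pow_le_pow_left₀ y0 h.le 2
    linarith
  push Not at h
  obtain ⟨e, M2, M3⟩ := exists_nat_pow_near (x := y / 5) (y := (2 : ℝ)) (by linarith) (by norm_num)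
  obtain ⟨a, g1, g2⟩ := build e
  have le : 66 * ((2 : ℝ) ^ e) ^ 3 ≤ x := by
    have : (5 * (2 : ℝ) ^ e) ^ 3 ≤ y ^ 3 := pow_le_pow_left₀ (by positivity) (by linarith) 3
    have p : (0 : ℝ) ≤ ((2 : ℝ) ^ e) ^ 3 := by positivity
    rw [mul_pow] at this
    linarith
  have g : Good x ((2 ^ e) ^ 2) a := ⟨fun j j1 j2 => ⟨(g1 j j1 j2).1, (g1 j j1 j2).2.trans le⟩, g2⟩
  have a1 : ((2 : ℝ) ^ e) ^ 2 ≤ N x := by exact_mod_cast le_N g
  rw [pow_succ] at M3
  have : y ^ 2 ≤ (10 * (2 : ℝ) ^ e) ^ 2 := pow_le_pow_left₀ y0 (by linarith) 2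
  rw [mul_pow] at this
  linarith

end Pool.Agent.Results.MP_6d8139_co.TwoThirds
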